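import Pool.Agent.Helper33.PT.Defs

/-!
# T-PAIR: comparison of local heights under field homomorphisms
-/

set_option autoImplicit false

open Finset Polynomial

namespace Pool.Agent.Helper55.TP

open Pool.Agent.Helper45.FR Pool.Agent.Helper33 Pool.Agent.Helper33.UB Pool.Agent.Helper55.RD

section map

variable {K E : Type*} [Field K] [Field E] {F G : K[X]} {d : ℕ}

lemma rmap_map (φ : K →+* E) (y : K) :
    rmap (F.map φ) (G.map φ) (φ y) = φ (rmap F G y) := by
  unfold rmap
  rw [eval_map_apply, eval_map_apply, map_div₀]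

lemma rmap_iter (φ : K →+* E) (y : K) (n : ℕ) :
    (rmap (F.map φ) (G.map φ))^[n] (φ y) = φ ((rmap F G)^[n] y) := by
  induction n generalizing y with
  | zero => rfl
  | succ n ih =>
    rw [Function.iterate_succ, Function.comp, rmap_map, ih, Function.iterate_succ, Function.comp]

/-- comparison of local heights -/
lemma ratH_map (φ : K →+* E) (v : DV K) (w : DV E) (c : ℤ) (hφ : ∀ z, z ≠ 0 → w.o (φ z) = c * v.o z)
    {X : Finset K} (hX : ∀ y ∈ X, G.eval y ≠ 0 ∧ F.eval y / G.eval y ∈ X) {y : K} (hy : y ∈ X) :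
    ratH w d (F.map φ) (G.map φ) (φ y) = c * ratH v d F G y := by
  unfold ratH
  rw [← tsum_mul_left]
  apply tsum_congr
  intro n
  have h1 : (rmap F G)^[n] y ∈ X := iterate_mem (fun y hy => (hX y hy).2) hy n
  rw [rmap_iter, eval_map_apply, hφ _ (hX _ h1).1]
  push_cast
  ring

end map

/-- sums of the local heights over the places -/
lemma sum_ratH_map {k K E W : Type*} [Field k] [Field K] [Field E] [Algebra k E] (Q : PSys k E W)
    {F G : K[X]} {d : ℕ} (hd : 2 ≤ d) (φ : K →+* E) {X : Finset K}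
    (hX : ∀ y ∈ X, G.eval y ≠ 0 ∧ F.eval y / G.eval y ∈ X) (T : Finset W)
    (hT : ∀ w, w ∉ T → ∀ y ∈ X, (Q.pl w).o (φ (G.eval y)) = 0) {y : K} (hy : y ∈ X) :
    ∑ w ∈ T, ratH (Q.pl w) d (F.map φ) (G.map φ) (φ y) = 0 := by
  classical
  refine sum_ratH Q hd (X := X.image φ) ?_ ?_ T ?_ (mem_image_of_mem _ hy)
  · intro z hz
    obtain ⟨u, hu, rfl⟩ := mem_image.mp hz
    rw [rmap_map]
    exact mem_image_of_mem _ (hX u hu).2
  · intro z hz
    obtain ⟨u, hu, rfl⟩ := mem_image.mp hz
    rw [eval_map_apply]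
    exact (map_ne_zero φ).mpr (hX u hu).1
  · intro w hw z hz
    obtain ⟨u, hu, rfl⟩ := mem_image.mp hz
    rw [eval_map_apply]
    exact hT w hw u hu

/-- the energy of the mapped orbit -/
lemma En_map {K E : Type*} [Field K] [Field E] [DecidableEq K] {F G : K[X]} {d : ℕ}
    (φ : K →+* E) (v : DV K) (w : DV E) (c : ℤ) (hφ : ∀ z, z ≠ 0 → w.o (φ z) = c * v.o z)
    (H : K → ℝ) (x : ℕ → K) (S : Finset ℕ) (hx : Set.InjOn x (S : Set ℕ)) :
    PT.En w (fun j => φ (x j)) (fun j => c * H (x j))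
      (c * ((v.o (resultant F G d d) : ℝ) / (d * (d - 1)))) S =
      c * ∑ y ∈ S.image x, ∑ z ∈ S.image x with z ≠ y, gg v d F G H y z := by
  unfold PT.En
  rw [Finset.sum_image (fun i hi j hj hij => hx hi hj hij), Finset.mul_sum]
  apply Finset.sum_congr rfl
  intro i hi
  rw [Finset.sum_filter, Finset.sum_filter, Finset.sum_image (fun i hi j hj hij => hx hi hj hij),
    Finset.mul_sum]
  apply Finset.sum_congr rfl
  intro j hj
  by_cases h : j = i
  · subst h
    simp
  · have h' : x j ≠ x i := fun hc => h (hx hj hi hc)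
    have h2 : x i - x j ≠ 0 := sub_ne_zero.mpr (Ne.symm h')
    rw [if_pos h, if_pos h', ← map_sub, hφ _ h2]
    unfold gg
    push_cast
    ring

end Pool.Agent.Helper55.TP
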