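import Pool.Agent.Helper55.TP.Ext
import Pool.Agent.Helper55.LW.Spec
import Pool.Agent.Helper11.PT.DetBase
import Pool.Agent.Helper53.PT.Minor

/-!
# T-PAIR: the wild ramification is small compared with the total badness
-/

set_option autoImplicit false

open Finset Polynomial

namespace Pool.Agent.Helper55.TP

open Pool.Agent.Helper45.FR Pool.Agent.Helper33.UB Pool.Agent.Helper51.RatTree Pool.Agent.Helper93.RatODE
  Pool.Agent.Helper33.PS Pool.Agent.Helper55.RD Pool.Agent.Helper33 Pool.Agent.Helper33.PT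

/-- the energy lower bound T-LE2 (for the degree `d`) -/
def LE2 (d : ℕ) : Prop := ∀ (K : Type) [Field K] [DecidableEq K] (v : DV K)
    (F G : K[X]) (_ : IsRat F G d) (x : ℕ → K) (N : ℕ) (h : RatOrbit F G x N) (_ : 2 ≤ N)
    (R : RLoc v F G d (rX h) (ratH v d F G)) (κ : ℕ) (_ : 1 ≤ κ) (S : Finset K) (_ : S ⊆ rX h)
    (_ : S.card = 2 * d ^ κ),
    -(36 * (d - 1) * κ * d ^ κ * R.ε : ℝ) ≤
      ∑ y ∈ S, ∑ z ∈ S with z ≠ y, gg v d F G (ratH v d F G) y z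

/-! ### places outside `T` -/

lemma ratH_eq_zero {K : Type} [Field K] {v : DV K} {F G : K[X]} {d : ℕ} {X : Finset K}
    (hX : ∀ y ∈ X, G.eval y ≠ 0 ∧ F.eval y / G.eval y ∈ X) (h0 : ∀ y ∈ X, v.o (G.eval y) = 0)
    {y : K} (hy : y ∈ X) : ratH v d F G y = 0 := by
  unfold ratH
  have : ∀ n : ℕ, (v.o (G.eval ((rmap F G)^[n] y)) : ℝ) / (d : ℝ) ^ (n + 1) = 0 := by
    intro n
    rw [h0 _ (iterate_mem (fun y hy => (hX y hy).2) hy n)]
    simp
  rw [tsum_congr this, tsum_zero]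

lemma eps_eq_zero {k K V : Type} [Field k] [Field K] [Algebra k K] {P : PSys k K V} {F G : K[X]}
    {d : ℕ} (hd : 2 ≤ d) {x : ℕ → K} {N : ℕ} (hN : N₀ d ≤ N) (h : RatOrbit F G x N) {T : Finset V}
    (hT : RAdm P F G d (rX h) T) {v : V} (hv : v ∉ T)
    (rl : RLoc (P.pl v) F G d (rX h) (ratH (P.pl v) d F G)) : rl.ε = 0 := by
  classical
  have hcard : N₀ d ≤ (rX h).card := by
    have h1 : (range (N + 1)).image x ⊆ rX h := by
      intro y hy
      obtain ⟨i, -, rfl⟩ := mem_image.mp hy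
      exact mem_rX h i
    have h2 : ((range (N + 1)).image x).card = N + 1 := by
      rw [Finset.card_image_of_injOn, card_range]
      intro i hi j hj hij
      rw [Finset.coe_range, Set.mem_Iio] at hi hj
      exact h.inj i j (by omega) (by omega) hij
    have := Finset.card_le_card h1
    omega
  obtain ⟨y, hy, z, hz, hyz, hle⟩ := rl.lb (rX h) (subset_refl _) hcard
  unfold gg at hle
  rw [ratH_eq_zero (rX_spec h) (hT.G0 v hv) hy, ratH_eq_zero (rX_spec h) (hT.G0 v hv) hz,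
    hT.diff v hv y hy z hz hyz, hT.res v hv] at hle
  simp only [Int.cast_zero, sub_zero, zero_div, add_zero] at hle
  have hc := c₀_pos hd
  by_contra hne
  have h3 : (1 : ℝ) ≤ rl.ε := by
    have : 1 ≤ rl.ε := Nat.one_le_iff_ne_zero.mpr hne
    exact_mod_cast this
  nlinarith

/-! ### fibres -/

section fibres

variable {k K E V W : Type} [Field k] [Field K] [Field E] [Algebra k K] [Algebra k E] [Algebra K E]
    [IsScalarTower k K E] {P : PSys k K V} {Q : PSys k E W} {n : ℕ}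

lemma fibre_finite (gs : GalW P Q n) (v : V) : {w : W | gs.res w = v}.Finite := by
  by_contra hinf
  obtain ⟨s, hs, hcard⟩ := Set.Infinite.exists_subset_card_eq hinf (n + 1)
  have h1 := gs.fib v s (fun w hw => hs hw)
  have h2 : ∑ w ∈ s, 1 ≤ ∑ w ∈ s, gs.ram w := Finset.sum_le_sum fun w _ => gs.ram_pos w
  simp only [Finset.sum_const, smul_eq_mul, mul_one] at h2
  omega

lemma sum_fibres (gs : GalW P Q n) (T : Finset V) (ε : V → ℝ) (hε : ∀ v, 0 ≤ ε v)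
    (h0 : ∀ v, v ∉ T → ε v = 0) (S : Finset W) :
    ∑ w ∈ S, ε (gs.res w) * gs.ram w ≤ n * ∑ v ∈ T, ε v := by
  classical
  have h1 : ∑ w ∈ S, ε (gs.res w) * gs.ram w =
      ∑ w ∈ S.filter (fun w => gs.res w ∈ T), ε (gs.res w) * gs.ram w := by
    rw [Finset.sum_filter_of_ne]
    intro w _ hw
    by_contra hcon
    rw [h0 _ hcon, zero_mul] at hw
    exact hw rfl
  rw [h1, ← Finset.sum_fiberwise_of_maps_to (s := S.filter (fun w => gs.res w ∈ T)) (t := T)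
    (g := gs.res) (fun w hw => (mem_filter.mp hw).2), Finset.mul_sum]
  apply Finset.sum_le_sum
  intro v _
  have h2 : ∑ w ∈ (S.filter (fun w => gs.res w ∈ T)).filter (fun w => gs.res w = v),
      ε (gs.res w) * gs.ram w = ε v *
      ((∑ w ∈ (S.filter (fun w => gs.res w ∈ T)).filter (fun w => gs.res w = v), gs.ram w : ℕ) : ℝ) := by
    push_cast
    rw [Finset.mul_sum]
    apply Finset.sum_congr rfl
    intro w hw
    rw [(mem_filter.mp hw).2]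
  rw [h2, mul_comm]
  have h3 := gs.fib v ((S.filter (fun w => gs.res w ∈ T)).filter (fun w => gs.res w = v))
    (fun w hw => (mem_filter.mp hw).2)
  have h4 : ((∑ w ∈ (S.filter (fun w => gs.res w ∈ T)).filter (fun w => gs.res w = v),
      gs.ram w : ℕ) : ℝ) ≤ n := by exact_mod_cast h3
  exact mul_le_mul_of_nonneg_right h4 (hε v)

end fibres

lemma exists_kappa (d : ℕ) (hd : 2 ≤ d) (C κ : ℝ) (hκ : 0 < κ) :
    ∃ κ₀ : ℕ, 1 ≤ κ₀ ∧ C * κ₀ ≤ κ * (d : ℝ) ^ κ₀ := by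
  have hdr : (1 : ℝ) < d := by
    have : (2 : ℝ) ≤ d := by exact_mod_cast hd
    linarith
  have h1 := tendsto_pow_const_div_const_pow_of_one_lt 1 hdr
  have hC : 0 < κ / (|C| + 1) := by positivity
  have h2 := (h1.eventually (gt_mem_nhds hC)).and (Filter.eventually_ge_atTop 1)
  obtain ⟨κ₀, h3, h4⟩ := h2.exists
  refine ⟨κ₀, h4, ?_⟩
  have hpos : (0 : ℝ) < (d : ℝ) ^ κ₀ := by positivity
  rw [pow_one, div_lt_iff₀ hpos] at h3
  have h5 : (0 : ℝ) < |C| + 1 := by positivity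
  have h6 : (κ₀ : ℝ) * (|C| + 1) ≤ κ * (d : ℝ) ^ κ₀ := by
    have h7 : κ / (|C| + 1) * (d : ℝ) ^ κ₀ * (|C| + 1) = κ * (d : ℝ) ^ κ₀ := by
      field_simp
    rw [← h7]
    exact mul_le_mul_of_nonneg_right h3.le h5.le
  have h8 : C * κ₀ ≤ (κ₀ : ℝ) * (|C| + 1) := by
    have h9 := le_abs_self C
    have h10 : (0 : ℝ) ≤ κ₀ := Nat.cast_nonneg _
    nlinarith
  exact h8.trans h6

/-! ### the local inequalities -/

section loc

variable {K E : Type} [Field K] [Field E] {F G : K[X]} {d : ℕ} {x : ℕ → K} {N : ℕ}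

/-- energies of the mapped orbit -/
lemma energy_map [DecidableEq K] (hLE : LE2 d) (hFG : IsRat F G d) (h : RatOrbit F G x N) (hN : 2 ≤ N)
    (φ : K →+* E) (w : DV E) (v : DV K) (c : ℕ) (hφ : ∀ z, z ≠ 0 → w.o (φ z) = c * v.o z)
    (rl : RLoc v F G d (rX h) (ratH v d F G)) (κ₀ : ℕ) (hκ : 1 ≤ κ₀) (I : Finset ℕ)
    (hI : Set.InjOn x (I : Set ℕ)) (S : Finset ℕ) (hS : S ⊆ I) (hc : S.card = 2 * d ^ κ₀) :
    2 * (-(18 * (d - 1) * κ₀ * d ^ κ₀ * rl.ε : ℝ) * c) ≤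
      En w (fun j => φ (x j)) (fun j => c * ratH v d F G (x j))
        (c * ((v.o (resultant F G d d) : ℝ) / (d * (d - 1)))) S := by
  have h1 := En_map (F := F) (G := G) (d := d) φ v w (c : ℤ) (by
    intro z hz
    rw [hφ z hz]) (ratH v d F G) x S (hI.mono (by exact_mod_cast hS))
  simp only [Int.cast_natCast] at h1
  rw [h1]
  have h2 := hLE K v F G hFG x N h hN rl κ₀ hκ (S.image x) (by
    intro y hy
    obtain ⟨j, -, rfl⟩ := mem_image.mp hy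
    exact mem_rX h j) (by
    rw [Finset.card_image_of_injOn (hI.mono (by exact_mod_cast hS)), hc])
  have h3 : (0 : ℝ) ≤ c := Nat.cast_nonneg c
  have h4 := mul_le_mul_of_nonneg_left h2 h3
  refine le_trans (le_of_eq ?_) h4
  ring

lemma local_base [DecidableEq K] (hLE : LE2 d) (hd : 2 ≤ d) (hFG : IsRat F G d) (h : RatOrbit F G x N) (hN : 2 ≤ N)
    (φ₁ φ₂ : K →+* E) (w : DV E) (v₁ v₂ : DV K) (c₁ c₂ : ℕ)
    (h1 : ∀ z, z ≠ 0 → w.o (φ₁ z) = c₁ * v₁.o z) (h2 : ∀ z, z ≠ 0 → w.o (φ₂ z) = c₂ * v₂.o z)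
    (rl₁ : RLoc v₁ F G d (rX h) (ratH v₁ d F G)) (rl₂ : RLoc v₂ F G d (rX h) (ratH v₂ d F G))
    (κ₀ : ℕ) (hκ : 1 ≤ κ₀) (I : Finset ℕ) (hI : Set.InjOn x (I : Set ℕ))
    (hIc : 2 * d ^ κ₀ ≤ I.card)
    (i : Fin (2 * d ^ κ₀) × Fin (2 * d ^ κ₀) → ℕ) (hi : ∀ a, i a ∈ I)
    (hdet : (PM (2 * d ^ κ₀) ((fun j => φ₁ (x j)) ∘ i) ((fun j => φ₂ (x j)) ∘ i)).det ≠ 0) :
    (2 * d ^ κ₀ : ℝ) * (-(18 * (d - 1) * κ₀ * d ^ κ₀ * rl₁.ε : ℝ) * c₁ +
      -(18 * (d - 1) * κ₀ * d ^ κ₀ * rl₂.ε : ℝ) * c₂) ≤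
      (w.o (PM (2 * d ^ κ₀) ((fun j => φ₁ (x j)) ∘ i) ((fun j => φ₂ (x j)) ∘ i)).det : ℝ) -
      (2 * d ^ κ₀ - 1) * (∑ a, c₁ * ratH v₁ d F G (x (i a)) + ∑ a, c₂ * ratH v₂ d F G (x (i a))) +
      (c₁ * ((v₁.o (resultant F G d d) : ℝ) / (d * (d - 1))) +
        c₂ * ((v₂.o (resultant F G d d) : ℝ) / (d * (d - 1)))) * (2 * d ^ κ₀ - 1) *
        (2 * d ^ κ₀) ^ 2 / 2 := by
  have hm : 1 ≤ 2 * d ^ κ₀ := by
    have : 0 < d ^ κ₀ := pow_pos (by omega) _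
    omega
  have key := Pool.Agent.Helper11.PT.det_base w (2 * d ^ κ₀) hm I hIc (fun j => φ₁ (x j))
    (fun j => φ₂ (x j)) (fun a ha b hb hab => hI ha hb (φ₁.injective hab))
    (fun a ha b hb hab => hI ha hb (φ₂.injective hab))
    (fun j => c₁ * ratH v₁ d F G (x j)) (fun j => c₂ * ratH v₂ d F G (x j))
    (c₁ * ((v₁.o (resultant F G d d) : ℝ) / (d * (d - 1))))
    (c₂ * ((v₂.o (resultant F G d d) : ℝ) / (d * (d - 1))))
    (-(18 * (d - 1) * κ₀ * d ^ κ₀ * rl₁.ε : ℝ) * c₁)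
    (-(18 * (d - 1) * κ₀ * d ^ κ₀ * rl₂.ε : ℝ) * c₂)
    (fun S hS hc => energy_map hLE hFG h hN φ₁ w v₁ c₁ h1 rl₁ κ₀ hκ I hI S hS hc)
    (fun S hS hc => energy_map hLE hFG h hN φ₂ w v₂ c₂ h2 rl₂ κ₀ hκ I hI S hS hc)
    i hi hdet
  rw [Finset.sum_add_distrib] at key
  push_cast at key ⊢
  exact key

lemma local_wild [DecidableEq K] (hLE : LE2 d) (hd : 2 ≤ d) (hFG : IsRat F G d) (h : RatOrbit F G x N) (hN : 2 ≤ N)
    (φ₁ φ₂ : K →+* E) (w : DV E) (v₁ : DV K) (c₁ : ℕ)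
    (h1 : ∀ z, z ≠ 0 → w.o (φ₁ z) = c₁ * v₁.o z) (h2 : ∀ z, z ≠ 0 → w.o (φ₂ z) = w.o (φ₁ z))
    (δ : ℕ) (hδ : ∀ z, z ≠ 0 → w.ge δ (φ₂ z / φ₁ z - 1))
    (rl₁ : RLoc v₁ F G d (rX h) (ratH v₁ d F G))
    (κ₀ : ℕ) (hκ : 1 ≤ κ₀) (I : Finset ℕ) (hI : Set.InjOn x (I : Set ℕ))
    (hIc : 3 * d ^ κ₀ ≤ I.card)
    (i : Fin (2 * d ^ κ₀) × Fin (2 * d ^ κ₀) → ℕ) (hi : ∀ a, i a ∈ I)
    (hdet : (PM (2 * d ^ κ₀) ((fun j => φ₁ (x j)) ∘ i) ((fun j => φ₂ (x j)) ∘ i)).det ≠ 0) :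
    (2 * d ^ κ₀ : ℝ) * (-(18 * (d - 1) * κ₀ * d ^ κ₀ * rl₁.ε : ℝ) * c₁ +
      -(18 * (d - 1) * κ₀ * d ^ κ₀ * rl₁.ε : ℝ) * c₁) + ((d : ℝ) ^ κ₀) ^ 3 * δ ≤
      (w.o (PM (2 * d ^ κ₀) ((fun j => φ₁ (x j)) ∘ i) ((fun j => φ₂ (x j)) ∘ i)).det : ℝ) -
      (2 * d ^ κ₀ - 1) * (∑ a, c₁ * ratH v₁ d F G (x (i a)) + ∑ a, c₁ * ratH v₁ d F G (x (i a))) +
      (c₁ * ((v₁.o (resultant F G d d) : ℝ) / (d * (d - 1))) +
        c₁ * ((v₁.o (resultant F G d d) : ℝ) / (d * (d - 1)))) * (2 * d ^ κ₀ - 1) *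
        (2 * d ^ κ₀) ^ 2 / 2 := by
  have hR : 1 ≤ d ^ κ₀ := Nat.one_le_iff_ne_zero.mpr (pow_pos (by omega) _).ne'
  have key := Pool.Agent.Helper55.LWI.lemmaW w (d ^ κ₀) hR I hIc (fun j => φ₁ (x j))
    (fun j => φ₂ (x j)) (fun a ha b hb hab => hI ha hb (φ₁.injective hab))
    (fun a ha b hb hab => hI ha hb (φ₂.injective hab))
    (fun j => c₁ * ratH v₁ d F G (x j))
    (c₁ * ((v₁.o (resultant F G d d) : ℝ) / (d * (d - 1))))
    (-(18 * (d - 1) * κ₀ * d ^ κ₀ * rl₁.ε : ℝ) * c₁) δ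
    (by
      intro a ha b hb hab
      have hne : x a - x b ≠ 0 := sub_ne_zero.mpr (fun hc => hab (hI ha hb hc))
      rw [← map_sub, ← map_sub, h2 _ hne])
    (by
      intro a ha b hb l hl hab hal hbl
      have hne1 : x a - x b ≠ 0 := sub_ne_zero.mpr (fun hc => hab (hI ha hb hc))
      have hne2 : x a - x l ≠ 0 := sub_ne_zero.mpr (fun hc => hal (hI ha hl hc))
      have e1 := hδ _ hne1
      have e2 := hδ _ hne2
      have e3 := DV.ge_sub e1 e2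
      rw [← map_sub, ← map_sub, ← map_sub, ← map_sub]
      rwa [sub_sub_sub_cancel_right] at e3)
    (fun S hS hc => energy_map hLE hFG h hN φ₁ w v₁ c₁ h1 rl₁ κ₀ hκ I hI S hS hc)
    i hi hdet
  push_cast at key ⊢
  linarith

end loc

/-- T-PAIR: the wild ramification is small compared with the total badness -/
theorem pair_bound_of (d n : ℕ) (hLE : LE2 d) (hd : 2 ≤ d) (κ : ℝ) (hκ : 0 < κ) : ∃ m N₀ : ℕ,
    ∀ {k K E V W : Type} [Field k] [Field K] [Field E] [Algebra k K] [Algebra k E] [Algebra K E]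
    [IsScalarTower k K E] (P : PSys k K V) (Q : PSys k E W)
    (_ : ∀ v, ∀ c : k, c ≠ 0 → (P.pl v).o (algebraMap k K c) = 0)
    (gs : GalW P Q n) (F G : K[X]) (_ : IsRat F G d)
    (x : ℕ → K) (N : ℕ) (_ : N₀ ≤ N) (h : RatOrbit F G x N) (T : Finset V) (_ : RAdm P F G d (rX h) T)
    (rl : ∀ v, RLoc (P.pl v) F G d (rX h) (ratH (P.pl v) d F G))
    (σ : E ≃ₐ[k] E) (_ : σ ∈ gs.G) (a w : ℕ) (_ : a + w ≤ N)
    (_ : ∀ p : Polynomial (Polynomial E), p ≠ 0 → p.natDegree < m → (∀ i, (p.coeff i).natDegree < m) →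
      ∃ j, a ≤ j ∧ j ≤ a + w ∧
        (p.eval (C (σ (algebraMap K E (x j))))).eval (algebraMap K E (x j)) ≠ 0)
    (S : Finset W) (_ : ∀ w ∈ S, gs.act σ w = w),
    (∑ w ∈ S, gs.wild σ w : ℝ) ≤ κ * ∑ v ∈ T, ((rl v).ε : ℝ) := by
  classical
  obtain ⟨κ₀, hκ₀, hκ₁⟩ := exists_kappa d hd (72 * (d - 1) * n) κ hκ
  refine ⟨2 * d ^ κ₀, N₀ d + 2, ?_⟩
  intro k K E V W _ _ _ _ _ _ _ P Q _ gs F G hFG x N hN h T hT rl σ hσ a wl hawl hrel S hS
  set I : Finset ℕ := Finset.Icc a (a + wl) with hIdef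
  have hI : Set.InjOn x (I : Set ℕ) := by
    intro i hi j hj hij
    rw [hIdef, Finset.coe_Icc, Set.mem_Icc] at hi hj
    exact h.inj i j (by omega) (by omega) hij
  set φ₁ : K →+* E := algebraMap K E with hφ₁
  set φ₂ : K →+* E := (σ : E →+* E).comp (algebraMap K E) with hφ₂
  obtain ⟨i, hi, hdet⟩ := exists_minor (2 * d ^ κ₀) I (fun j => φ₁ (x j)) (fun j => φ₂ (x j)) (by
    intro p hp hp1 hp2
    obtain ⟨j, hj1, hj2, hj3⟩ := hrel p hp hp1 hp2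
    exact ⟨j, Finset.mem_Icc.mpr ⟨hj1, hj2⟩, hj3⟩)
  set D : E := (PM (2 * d ^ κ₀) ((fun j => φ₁ (x j)) ∘ i) ((fun j => φ₂ (x j)) ∘ i)).det with hD
  -- the window is long
  have hR1 : 1 ≤ d ^ κ₀ := Nat.one_le_iff_ne_zero.mpr (pow_pos (by omega) _).ne'
  have hinj : Function.Injective i := by
    intro a b hab
    by_contra hne
    apply hdet
    apply Matrix.det_zero_of_row_eq hne
    ext c
    simp only [PM, Matrix.of_apply, Function.comp, hab]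
  have hIc : (2 * d ^ κ₀) * (2 * d ^ κ₀) ≤ I.card := by
    have h1 : (Finset.univ.image i) ⊆ I := by
      intro b hb
      obtain ⟨c, -, rfl⟩ := mem_image.mp hb
      exact hi c
    have h2 := Finset.card_le_card h1
    rw [Finset.card_image_of_injective _ hinj, Finset.card_univ, Fintype.card_prod,
      Fintype.card_fin] at h2
    exact h2
  have hIc2 : 2 * d ^ κ₀ ≤ I.card := by nlinarith
  have hIc3 : 3 * d ^ κ₀ ≤ I.card := by nlinarith
  -- the two maps at the places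
  set τ : W ≃ W := gs.act σ with hτ
  have hm1 : ∀ w, ∀ z : K, z ≠ 0 → (Q.pl w).o (φ₁ z) = (gs.ram w : ℤ) * (P.pl (gs.res w)).o z := by
    intro w z hz
    rw [hφ₁, gs.ram_spec w z hz]
  have hm2' : ∀ w, ∀ z : K, (Q.pl w).o (φ₂ z) = (Q.pl (τ.symm w)).o (φ₁ z) := by
    intro w z
    have := gs.act_spec σ hσ (τ.symm w) (algebraMap K E z)
    rw [← hτ, Equiv.apply_symm_apply] at this
    exact this
  have hm2 : ∀ w, ∀ z : K, z ≠ 0 → (Q.pl w).o (φ₂ z) =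
      (gs.ram (τ.symm w) : ℤ) * (P.pl (gs.res (τ.symm w))).o z := by
    intro w z hz
    rw [hm2', hm1 _ z hz]
  have hres : resultant F G d d ≠ 0 := resultant_ne_zero_of_isRat (by omega) hFG
  -- a big finite set of places
  obtain ⟨T₀, -, hT₀⟩ := Q.exists_finset
    (insert D (insert (φ₁ (resultant F G d d)) (insert (φ₂ (resultant F G d d))
      ((rX h).image (fun y => φ₁ (G.eval y)) ∪ (rX h).image (fun y => φ₂ (G.eval y)))))) (by
      intro z hz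
      rw [mem_insert, mem_insert, mem_insert, mem_union, mem_image, mem_image] at hz
      rcases hz with rfl | rfl | rfl | ⟨y, hy, rfl⟩ | ⟨y, hy, rfl⟩
      · exact hdet
      · exact (map_ne_zero φ₁).mpr hres
      · exact (map_ne_zero φ₂).mpr hres
      · exact (map_ne_zero φ₁).mpr (rX_spec h y hy).1
      · exact (map_ne_zero φ₂).mpr (rX_spec h y hy).1)
  set U : Finset W := T₀ ∪ S with hU
  have hU0 : ∀ w, w ∉ U → w ∉ T₀ := fun w hw hc => hw (mem_union_left _ hc)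
  -- product formulas
  have hsumD : ∑ w ∈ U, ((Q.pl w).o D : ℝ) = 0 := by
    have := Q.sum_eq_zero U D hdet (fun w hw => hT₀ _ (mem_insert_self _ _) w (hU0 w hw))
    exact_mod_cast this
  have hsumR1 : ∑ w ∈ U, ((gs.ram w : ℝ) * ((P.pl (gs.res w)).o (resultant F G d d) : ℝ)) = 0 := by
    have := Q.sum_eq_zero U (φ₁ (resultant F G d d)) ((map_ne_zero φ₁).mpr hres)
      (fun w hw => hT₀ _ (by rw [mem_insert, mem_insert]; right; left; rfl) w (hU0 w hw))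
    rw [Finset.sum_congr rfl (fun w _ => hm1 w _ hres)] at this
    exact_mod_cast this
  have hsumR2 : ∑ w ∈ U, ((gs.ram (τ.symm w) : ℝ) *
      ((P.pl (gs.res (τ.symm w))).o (resultant F G d d) : ℝ)) = 0 := by
    have := Q.sum_eq_zero U (φ₂ (resultant F G d d)) ((map_ne_zero φ₂).mpr hres)
      (fun w hw => hT₀ _ (by rw [mem_insert, mem_insert, mem_insert]; right; right; left; rfl) w
        (hU0 w hw))
    rw [Finset.sum_congr rfl (fun w _ => hm2 w _ hres)] at this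
    exact_mod_cast this
  have hsumH1 : ∀ j, ∑ w ∈ U, (gs.ram w : ℝ) * ratH (P.pl (gs.res w)) d F G (x j) = 0 := by
    intro j
    rw [← sum_ratH_map Q hd φ₁ (rX_spec h) U (by
      intro w hw y hy
      refine hT₀ _ ?_ w (hU0 w hw)
      rw [mem_insert, mem_insert, mem_insert, mem_union, mem_image]
      right; right; right; left
      exact ⟨y, hy, rfl⟩) (mem_rX h j)]
    apply Finset.sum_congr rfl
    intro w _
    rw [ratH_map φ₁ (P.pl (gs.res w)) (Q.pl w) (gs.ram w : ℤ) (hm1 w) (rX_spec h) (mem_rX h j)]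
    push_cast
    rfl
  have hsumH2 : ∀ j, ∑ w ∈ U, (gs.ram (τ.symm w) : ℝ) *
      ratH (P.pl (gs.res (τ.symm w))) d F G (x j) = 0 := by
    intro j
    rw [← sum_ratH_map Q hd φ₂ (rX_spec h) U (by
      intro w hw y hy
      refine hT₀ _ ?_ w (hU0 w hw)
      rw [mem_insert, mem_insert, mem_insert, mem_union, mem_image, mem_image]
      right; right; right; right
      exact ⟨y, hy, rfl⟩) (mem_rX h j)]
    apply Finset.sum_congr rfl
    intro w _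
    rw [ratH_map φ₂ (P.pl (gs.res (τ.symm w))) (Q.pl w) (gs.ram (τ.symm w) : ℤ) (hm2 w)
      (rX_spec h) (mem_rX h j)]
    push_cast
    rfl
  -- local inequalities
  set R : ℝ := (d : ℝ) ^ κ₀ with hRdef
  set A : ℝ := 18 * (d - 1) * κ₀ * R with hA
  set ε : V → ℝ := fun v => ((rl v).ε : ℝ) with hε
  set ρ : V → ℝ := fun v => ((P.pl v).o (resultant F G d d) : ℝ) with hρ
  set c₁ : W → ℝ := fun w => (gs.ram w : ℝ) with hc₁
  set c₂ : W → ℝ := fun w => (gs.ram (τ.symm w) : ℝ) with hc₂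
  set H₁ : W → ℝ := fun w => ∑ b, c₁ w * ratH (P.pl (gs.res w)) d F G (x (i b)) with hH₁
  set H₂ : W → ℝ := fun w => ∑ b, c₂ w * ratH (P.pl (gs.res (τ.symm w))) d F G (x (i b)) with hH₂
  set Q₀ : ℝ := (d : ℝ) * (d - 1) with hQ₀
  have hloc : ∀ w ∈ U, (2 * R) * (-(A * ε (gs.res w)) * c₁ w + -(A * ε (gs.res (τ.symm w))) * c₂ w)
      + R ^ 3 * (if w ∈ S then (gs.wild σ w : ℝ) else 0) ≤
      ((Q.pl w).o D : ℝ) - (2 * R - 1) * (H₁ w + H₂ w) +
        (c₁ w * (ρ (gs.res w) / Q₀) + c₂ w * (ρ (gs.res (τ.symm w)) / Q₀)) * (2 * R - 1) *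
          (2 * R) ^ 2 / 2 := by
    intro w _
    by_cases hwS : w ∈ S ∧ 1 ≤ gs.wild σ w
    · have hfix : τ.symm w = w := by
        rw [Equiv.symm_apply_eq]
        exact (hS w hwS.1).symm
      have key := local_wild hLE hd hFG h (by omega) φ₁ φ₂ (Q.pl w) (P.pl (gs.res w)) (gs.ram w)
        (hm1 w) (by
          intro z _
          rw [hm2', hfix]) (gs.wild σ w) (by
          intro z hz
          exact gs.wild_spec σ hσ w (hS w hwS.1) hwS.2 z hz) (rl (gs.res w)) κ₀ hκ₀ I hI hIc3 i hi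
          hdet
      have h1 : c₂ w = c₁ w := by simp only [hc₂, hc₁, hfix]
      have h2 : H₂ w = H₁ w := by simp only [hH₂, hH₁, h1, hfix]
      rw [if_pos hwS.1, hfix, h1, h2]
      exact key
    · have key := local_base hLE hd hFG h (by omega) φ₁ φ₂ (Q.pl w) (P.pl (gs.res w))
        (P.pl (gs.res (τ.symm w))) (gs.ram w) (gs.ram (τ.symm w)) (hm1 w) (hm2 w)
        (rl (gs.res w)) (rl (gs.res (τ.symm w))) κ₀ hκ₀ I hI hIc2 i hi hdet
      have h0 : (if w ∈ S then (gs.wild σ w : ℝ) else 0) = 0 := by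
        by_cases hw : w ∈ S
        · rw [if_pos hw]
          have : gs.wild σ w = 0 := by
            by_contra hne
            exact hwS ⟨hw, by omega⟩
          rw [this, Nat.cast_zero]
        · rw [if_neg hw]
      rw [h0, mul_zero, add_zero]
      exact key
  -- summation
  have hsum := Finset.sum_le_sum hloc
  have e1 : ∑ w ∈ U, H₁ w = 0 := by
    rw [hH₁, Finset.sum_comm]
    exact Finset.sum_eq_zero fun b _ => hsumH1 (i b)
  have e2 : ∑ w ∈ U, H₂ w = 0 := by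
    rw [hH₂, Finset.sum_comm]
    exact Finset.sum_eq_zero fun b _ => hsumH2 (i b)
  have e3 : ∑ w ∈ U, c₁ w * (ρ (gs.res w) / Q₀) = 0 := by
    have : ∀ w ∈ U, c₁ w * (ρ (gs.res w) / Q₀) = (c₁ w * ρ (gs.res w)) / Q₀ := by
      intro w _
      ring
    rw [Finset.sum_congr rfl this, ← Finset.sum_div]
    have h0 : ∑ w ∈ U, c₁ w * ρ (gs.res w) = 0 := hsumR1
    rw [h0, zero_div]
  have e4 : ∑ w ∈ U, c₂ w * (ρ (gs.res (τ.symm w)) / Q₀) = 0 := by
    have : ∀ w ∈ U, c₂ w * (ρ (gs.res (τ.symm w)) / Q₀) =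
        (c₂ w * ρ (gs.res (τ.symm w))) / Q₀ := by
      intro w _
      ring
    rw [Finset.sum_congr rfl this, ← Finset.sum_div]
    have h0 : ∑ w ∈ U, c₂ w * ρ (gs.res (τ.symm w)) = 0 := hsumR2
    rw [h0, zero_div]
  have e5 : ∑ w ∈ U, (if w ∈ S then (gs.wild σ w : ℝ) else 0) = ∑ w ∈ S, (gs.wild σ w : ℝ) := by
    rw [Finset.sum_ite_mem]
    congr 1
    rw [hU]
    exact Finset.inter_eq_right.mpr Finset.subset_union_right
  have hε0 : ∀ v, 0 ≤ ε v := fun v => Nat.cast_nonneg _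
  have hεT : ∀ v, v ∉ T → ε v = 0 := by
    intro v hv
    have := eps_eq_zero hd (by omega) h hT hv (rl v)
    rw [hε]
    simp only [this, Nat.cast_zero]
  have e6 : ∑ w ∈ U, ε (gs.res w) * c₁ w ≤ n * ∑ v ∈ T, ε v := sum_fibres gs T ε hε0 hεT U
  have e7 : ∑ w ∈ U, ε (gs.res (τ.symm w)) * c₂ w ≤ n * ∑ v ∈ T, ε v := by
    have := sum_fibres gs T ε hε0 hεT (U.map τ.symm.toEmbedding)
    rw [Finset.sum_map] at this
    exact this
  have hR0 : (1 : ℝ) ≤ R := by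
    rw [hRdef]
    exact_mod_cast hR1
  have hdr : (2 : ℝ) ≤ d := by exact_mod_cast hd
  have hA0 : 0 ≤ A := by
    rw [hA]
    have : (0 : ℝ) ≤ (d : ℝ) - 1 := by linarith
    positivity
  have hL : ∑ w ∈ U, ((2 * R) * (-(A * ε (gs.res w)) * c₁ w + -(A * ε (gs.res (τ.symm w))) * c₂ w)
      + R ^ 3 * (if w ∈ S then (gs.wild σ w : ℝ) else 0)) =
      -(2 * R * A) * (∑ w ∈ U, ε (gs.res w) * c₁ w) - (2 * R * A) *
        (∑ w ∈ U, ε (gs.res (τ.symm w)) * c₂ w) + R ^ 3 * ∑ w ∈ S, (gs.wild σ w : ℝ) := by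
    rw [← e5]
    simp only [Finset.mul_sum, ← Finset.sum_add_distrib, ← Finset.sum_sub_distrib]
    apply Finset.sum_congr rfl
    intro w _
    ring
  have hRt : ∑ w ∈ U, (((Q.pl w).o D : ℝ) - (2 * R - 1) * (H₁ w + H₂ w) +
        (c₁ w * (ρ (gs.res w) / Q₀) + c₂ w * (ρ (gs.res (τ.symm w)) / Q₀)) * (2 * R - 1) *
          (2 * R) ^ 2 / 2) = 0 := by
    rw [Finset.sum_add_distrib, Finset.sum_sub_distrib, hsumD, ← Finset.mul_sum,
      Finset.sum_add_distrib, e1, e2, ← Finset.sum_div, ← Finset.sum_mul, ← Finset.sum_mul,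
      Finset.sum_add_distrib, e3, e4]
    ring
  rw [hL, hRt] at hsum
  set Se : ℝ := ∑ v ∈ T, ε v with hSe
  set Sw : ℝ := ∑ w ∈ S, (gs.wild σ w : ℝ) with hSw
  have hS0 : 0 ≤ Se := Finset.sum_nonneg fun v _ => hε0 v
  have hRA : 0 ≤ 2 * R * A := by positivity
  have h6 := mul_le_mul_of_nonneg_left e6 hRA
  have h7 := mul_le_mul_of_nonneg_left e7 hRA
  have h8 : R ^ 3 * Sw ≤ 4 * R * A * (n * Se) := by nlinarith
  have h9 : R ^ 3 * Sw ≤ R ^ 3 * (κ * Se) := by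
    have h10 : 4 * R * A * (n * Se) = R ^ 2 * Se * (72 * (d - 1) * n * κ₀) := by
      rw [hA]
      ring
    have h11 : R ^ 2 * Se * (72 * (d - 1) * n * κ₀) ≤ R ^ 2 * Se * (κ * R) :=
      mul_le_mul_of_nonneg_left hκ₁ (by positivity)
    calc R ^ 3 * Sw ≤ 4 * R * A * (n * Se) := h8
      _ = R ^ 2 * Se * (72 * (d - 1) * n * κ₀) := h10
      _ ≤ R ^ 2 * Se * (κ * R) := h11
      _ = R ^ 3 * (κ * Se) := by ring
  exact le_of_mul_le_mul_left h9 (by positivity)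

end Pool.Agent.Helper55.TP
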